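import Mathlib

set_option autoImplicit false

/-!
# Diagonal products of stochastic matrices of bounded rank
-/

open Matrix Finset

namespace Pool.Agent.Results.MP_bd2037_co.DiagonalProducts

/-! ### Packing the diagonal into bins -/

section Core

variable {m n : ℕ}

/-- indicator matrix of an assignment of the columns to `m` bins -/
def ind (π : Fin n → Fin m) : Matrix (Fin n) (Fin m) ℝ := fun j b => if π j = b then 1 else 0

theorem mul_updateRow (W : Matrix (Fin m) (Fin n) ℝ) (T : Matrix (Fin n) (Fin m) ℝ) (j : Fin n)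
    (t : Fin m → ℝ) :
    W * T.updateRow j t = W * T +
      replicateCol Unit (fun c => W c j) * replicateRow Unit (fun b => t b - T j b) := by
  ext c b
  rw [Matrix.add_apply, Matrix.mul_apply, Matrix.mul_apply, Matrix.mul_apply]
  have h : ∀ i, W c i * (T.updateRow j t) i b =
      W c i * T i b + (if i = j then W c j * (t b - T j b) else 0) := by
    intro i
    by_cases hi : i = j
    · subst hi
      simp [Matrix.updateRow_self]
      ring
    · simp [hi]
  rw [Finset.sum_congr rfl (fun i _ => h i), Finset.sum_add_distrib]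
  simp

theorem det_upd (W : Matrix (Fin m) (Fin n) ℝ) (T : Matrix (Fin n) (Fin m) ℝ) (j : Fin n)
    (t : Fin m → ℝ) (hG : (W * T).det ≠ 0) :
    (W * T.updateRow j t).det =
      (W * T).det * (1 + ∑ b, (t b - T j b) * (((W * T)⁻¹ * W) b j)) := by
  rw [mul_updateRow, det_add_replicateCol_mul_replicateRow (isUnit_iff_ne_zero.2 hG)]
  congr 1
  rw [det_unique, Matrix.add_apply, Matrix.one_apply_eq, Matrix.mul_assoc]
  congr 1

theorem exists_nonsing (W : Matrix (Fin m) (Fin n) ℝ) (T0 : Matrix (Fin n) (Fin m) ℝ)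
    (hrow : ∀ j, ∑ b, T0 j b = 1) (h : (W * T0).det ≠ 0) :
    ∃ π : Fin n → Fin m, (W * ind π).det ≠ 0 := by
  have key : ∀ S : Finset (Fin n), ∃ T : Matrix (Fin n) (Fin m) ℝ, (∀ j, ∑ b, T j b = 1) ∧
      (∀ j ∈ S, ∃ b, T j = Pi.single b 1) ∧ (W * T).det ≠ 0 := by
    intro S
    induction S using Finset.induction_on with
    | empty => exact ⟨T0, hrow, by simp, h⟩
    | insert j S hj ih =>
      obtain ⟨T, h1, h2, h3⟩ := ih
      by_contra hcon
      push Not at hcon
      have hz : ∀ b, 1 + ∑ c, ((Pi.single b 1 : Fin m → ℝ) c - T j c) *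
          (((W * T)⁻¹ * W) c j) = 0 := by
        intro b
        have h4 := hcon (T.updateRow j (Pi.single b 1)) (by
          intro i
          by_cases hi : i = j
          · subst hi
            rw [Matrix.updateRow_self]
            simp
          · rw [Matrix.updateRow_ne hi]
            exact h1 i) (by
          intro i hi
          rw [Finset.mem_insert] at hi
          by_cases hij : i = j
          · subst hij
            exact ⟨b, Matrix.updateRow_self⟩
          · rw [Matrix.updateRow_ne hij]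
            exact h2 i (hi.resolve_left hij))
        rw [det_upd W T j _ h3] at h4
        exact (mul_eq_zero.1 h4).resolve_left h3
      have hz2 : ∀ b, 1 + (((W * T)⁻¹ * W) b j) - ∑ c, T j c * (((W * T)⁻¹ * W) c j) = 0 := by
        intro b
        have := hz b
        simp only [sub_mul, Finset.sum_sub_distrib] at this
        have h5 : ∑ c, (Pi.single b 1 : Fin m → ℝ) c * (((W * T)⁻¹ * W) c j) =
            ((W * T)⁻¹ * W) b j := by
          simp [Pi.single_apply]
        rw [h5] at this
        linarith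
      have h6 : ∑ b, T j b * (1 + (((W * T)⁻¹ * W) b j) -
          ∑ c, T j c * (((W * T)⁻¹ * W) c j)) = 0 := by
        apply Finset.sum_eq_zero
        intro b _
        rw [hz2 b, mul_zero]
      have h7 : ∑ b, T j b * (1 + (((W * T)⁻¹ * W) b j) -
          ∑ c, T j c * (((W * T)⁻¹ * W) c j)) = 1 := by
        simp only [mul_sub, mul_add, mul_one, Finset.sum_sub_distrib, Finset.sum_add_distrib]
        rw [← Finset.sum_mul, h1 j]
        ring
      rw [h7] at h6
      exact one_ne_zero h6
  obtain ⟨T, -, h2, h3⟩ := key Finset.univ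
  choose π hπ using fun j => h2 j (Finset.mem_univ j)
  refine ⟨π, ?_⟩
  have : ind π = T := by
    ext j b
    rw [hπ j, ind, Pi.single_apply]
    simp [eq_comm]
  rw [this]
  exact h3

theorem exists_start (W : Matrix (Fin m) (Fin n) ℝ) (R : Matrix (Fin n) (Fin m) ℝ)
    (hWR : W * R = 1) (hu : (fun c => ∑ i, W c i) ≠ 0) :
    ∃ T0 : Matrix (Fin n) (Fin m) ℝ, (∀ j, ∑ b, T0 j b = 1) ∧ (W * T0).det ≠ 0 := by
  obtain ⟨c, hc⟩ := Function.ne_iff.1 hu
  simp only [Pi.zero_apply] at hc
  set u : Fin m → ℝ := fun c => ∑ i, W c i with hud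
  set Z : Matrix (Fin m) (Fin m) ℝ := (1 : Matrix (Fin m) (Fin m) ℝ).updateCol c
    (fun a => u a - (if a = c then 0 else 1)) with hZ
  have hdet : Z.det = u c := by
    rw [hZ, ← Matrix.cramer_apply, Matrix.cramer_one]
    simp
  have hZrow : ∀ a, ∑ b, Z a b = u a := by
    intro a
    have : ∀ b, Z a b = (if b = c then u a - (if a = c then 0 else 1) else 0) +
        (if b = a then (if a = c then 0 else 1) else 0) := by
      intro b
      rw [hZ, Matrix.updateCol_apply]
      by_cases hb : b = c
      · subst hb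
        by_cases ha : a = b
        · simp [ha]
        · have : ¬ b = a := fun h => ha h.symm
          simp [ha, this]
      · by_cases hab : b = a
        · subst hab
          simp [hb]
        · have : ¬ a = b := fun h => hab h.symm
          simp [hb, hab, this]
    rw [Finset.sum_congr rfl (fun b _ => this b), Finset.sum_add_distrib]
    simp
  set T1 : Matrix (Fin n) (Fin m) ℝ := R * Z with hT1
  have hWT1 : W * T1 = Z := by rw [hT1, ← Matrix.mul_assoc, hWR, Matrix.one_mul]
  have hT1row : ∀ j, ∑ b, T1 j b = ∑ a, R j a * u a := by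
    intro j
    simp only [hT1, Matrix.mul_apply]
    rw [Finset.sum_comm]
    apply Finset.sum_congr rfl
    intro a _
    rw [← Finset.mul_sum, hZrow a]
  set ρ : Fin n → ℝ := fun j => ∑ a, R j a * u a with hρ
  refine ⟨Matrix.of (fun j b => T1 j b + (if b = c then 1 - ρ j else 0)), ?_, ?_⟩
  · intro j
    simp only [Matrix.of_apply]
    rw [Finset.sum_add_distrib, hT1row j]
    simp [hρ]
  · have : W * Matrix.of (fun j b => T1 j b + (if b = c then 1 - ρ j else 0)) = Z := by
      ext a b
      rw [Matrix.mul_apply, ← hWT1, Matrix.mul_apply]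
      simp only [Matrix.of_apply, mul_add, Finset.sum_add_distrib]
      have h0 : ∑ i, W a i * (if b = c then 1 - ρ i else 0) = 0 := by
        by_cases hb : b = c
        · simp only [hb, if_true, mul_sub, mul_one, Finset.sum_sub_distrib]
          have h8 : ∑ i, W a i * ρ i = u a := by
            simp only [hρ, Finset.mul_sum]
            rw [Finset.sum_comm]
            have : ∀ x, ∑ i, W a i * (R i x * u x) = (W * R) a x * u x := by
              intro x
              rw [Matrix.mul_apply, Finset.sum_mul]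
              apply Finset.sum_congr rfl
              intro i _
              ring
            rw [Finset.sum_congr rfl (fun x _ => this x), hWR]
            simp [Matrix.one_apply]
          rw [h8]
          simp [hud]
        · simp [hb]
      rw [h0, add_zero]
    rw [this, hdet]
    exact hc

theorem ind_update (π : Fin n → Fin m) (j : Fin n) (b : Fin m) :
    ind (Function.update π j b) = (ind π).updateRow j (Pi.single b 1) := by
  ext i c
  by_cases hi : i = j
  · subst hi
    simp [ind, Matrix.updateRow_self, Pi.single_apply, eq_comm]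
  · simp [ind, Matrix.updateRow_ne hi, Function.update_of_ne hi]

/-- the assignment maximises the absolute value of the determinant, and it is not zero -/
def IsOpt (W : Matrix (Fin m) (Fin n) ℝ) (π : Fin n → Fin m) : Prop :=
  (W * ind π).det ≠ 0 ∧ ∀ π' : Fin n → Fin m, |(W * ind π').det| ≤ |(W * ind π).det|

theorem det_move (W : Matrix (Fin m) (Fin n) ℝ) (π : Fin n → Fin m) (h : (W * ind π).det ≠ 0)
    (j : Fin n) (b : Fin m) :
    (W * ind (Function.update π j b)).det = (W * ind π).det *
      (1 + (((W * ind π)⁻¹ * W) b j - ((W * ind π)⁻¹ * W) (π j) j)) := by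
  rw [ind_update, det_upd W _ j _ h]
  congr 2
  simp only [sub_mul, Finset.sum_sub_distrib]
  congr 1
  · simp [Pi.single_apply]
  · simp [ind]

theorem coef_le {W : Matrix (Fin m) (Fin n) ℝ} {π : Fin n → Fin m} (h : IsOpt W π)
    (j : Fin n) (b : Fin m) :
    ((W * ind π)⁻¹ * W) b j ≤ ((W * ind π)⁻¹ * W) (π j) j := by
  have h1 := h.2 (Function.update π j b)
  rw [det_move W π h.1 j b, abs_mul] at h1
  have hpos : 0 < |(W * ind π).det| := abs_pos.2 h.1
  have h2 : |1 + (((W * ind π)⁻¹ * W) b j - ((W * ind π)⁻¹ * W) (π j) j)| ≤ 1 := by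
    by_contra hc
    push Not at hc
    nlinarith
  have := (abs_le.1 h2).2
  linarith

theorem opt_of_eq {W : Matrix (Fin m) (Fin n) ℝ} {π : Fin n → Fin m} (h : IsOpt W π)
    (j : Fin n) (b : Fin m)
    (he : ((W * ind π)⁻¹ * W) b j = ((W * ind π)⁻¹ * W) (π j) j) :
    IsOpt W (Function.update π j b) := by
  have h1 := det_move W π h.1 j b
  rw [he, sub_self, add_zero, mul_one] at h1
  unfold IsOpt
  rw [h1]
  exact h

variable {A : Matrix (Fin n) (Fin n) ℝ} {X : Matrix (Fin n) (Fin m) ℝ}
  {W : Matrix (Fin m) (Fin n) ℝ}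

theorem A_eq (hA : A = X * W) {π : Fin n → Fin m} (h : (W * ind π).det ≠ 0) :
    A = (A * ind π) * ((W * ind π)⁻¹ * W) := by
  have hu : IsUnit (W * ind π).det := isUnit_iff_ne_zero.2 h
  calc A = X * W := hA
    _ = X * ((W * ind π) * (W * ind π)⁻¹) * W := by
        rw [Matrix.mul_nonsing_inv _ hu, Matrix.mul_one]
    _ = (A * ind π) * ((W * ind π)⁻¹ * W) := by
        rw [hA]
        simp only [Matrix.mul_assoc]

theorem Q_nonneg (h0 : ∀ i j, 0 ≤ A i j) (π : Fin n → Fin m) (i : Fin n) (b : Fin m) :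
    0 ≤ (A * ind π) i b := by
  rw [Matrix.mul_apply]
  apply Finset.sum_nonneg
  intro j _
  apply mul_nonneg (h0 i j)
  unfold ind
  split_ifs <;> norm_num

theorem Q_eq (π : Fin n → Fin m) (i : Fin n) (b : Fin m) :
    (A * ind π) i b = ∑ j with π j = b, A i j := by
  rw [Matrix.mul_apply, Finset.sum_filter]
  apply Finset.sum_congr rfl
  intro j _
  unfold ind
  split_ifs <;> simp

theorem Q_sum (h1 : ∀ i, ∑ j, A i j = 1) (π : Fin n → Fin m) (i : Fin n) :
    ∑ b, (A * ind π) i b = 1 := by
  simp only [Matrix.mul_apply]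
  rw [Finset.sum_comm, ← h1 i]
  apply Finset.sum_congr rfl
  intro j _
  rw [← Finset.mul_sum]
  simp [ind]

theorem S_sum {π : Fin n → Fin m} (h : (W * ind π).det ≠ 0) (b : Fin m) :
    ∑ j with π j = b, ((W * ind π)⁻¹ * W) b j = 1 := by
  have hu : IsUnit (W * ind π).det := isUnit_iff_ne_zero.2 h
  have h1 : ((W * ind π)⁻¹ * W) * ind π = 1 := by
    rw [Matrix.mul_assoc, Matrix.nonsing_inv_mul _ hu]
  have h2 := congrFun (congrFun h1 b) b
  rw [Matrix.mul_apply, Matrix.one_apply_eq] at h2
  rw [Finset.sum_filter, ← h2]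
  apply Finset.sum_congr rfl
  intro j _
  unfold ind
  split_ifs <;> simp

theorem diag_le (hA : A = X * W) (h0 : ∀ i j, 0 ≤ A i j) (h1 : ∀ i, ∑ j, A i j = 1)
    {π : Fin n → Fin m} (h : IsOpt W π) (i : Fin n) :
    A i i ≤ ((W * ind π)⁻¹ * W) (π i) i := by
  have h2 := congrFun (congrFun (A_eq hA h.1) i) i
  rw [Matrix.mul_apply] at h2
  rw [h2]
  calc ∑ b, (A * ind π) i b * ((W * ind π)⁻¹ * W) b i
      ≤ ∑ b, (A * ind π) i b * ((W * ind π)⁻¹ * W) (π i) i := by
        apply Finset.sum_le_sum
        intro b _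
        exact mul_le_mul_of_nonneg_left (coef_le h i b) (Q_nonneg h0 π i b)
    _ = ((W * ind π)⁻¹ * W) (π i) i := by
        rw [← Finset.sum_mul, Q_sum h1, one_mul]

theorem block_le (hA : A = X * W) (h0 : ∀ i j, 0 ≤ A i j) (h1 : ∀ i, ∑ j, A i j = 1)
    {π : Fin n → Fin m} (h : IsOpt W π) (b : Fin m) :
    ∑ i with π i = b, A i i ≤ 1 := by
  rw [← S_sum h.1 b]
  apply Finset.sum_le_sum
  intro i hi
  rw [Finset.mem_filter] at hi
  have := diag_le hA h0 h1 h i
  rw [hi.2] at this
  exact this

theorem structure_of_eq (hA : A = X * W) (h0 : ∀ i j, 0 ≤ A i j) (h1 : ∀ i, ∑ j, A i j = 1)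
    {π : Fin n → Fin m} (h : IsOpt W π) (hp : ∀ i, 0 < A i i)
    (he : ∀ b, ∑ i with π i = b, A i i = 1) (i j : Fin n) :
    A i j = if π j = π i then A j j else 0 := by
  -- the diagonal entries are the coefficients
  have hd : ∀ i, A i i = ((W * ind π)⁻¹ * W) (π i) i := by
    intro i
    by_contra hne
    have hlt : A i i < ((W * ind π)⁻¹ * W) (π i) i := lt_of_le_of_ne (diag_le hA h0 h1 h i) hne
    have : ∑ l with π l = π i, A l l < ∑ l with π l = π i, ((W * ind π)⁻¹ * W) (π i) l := by
      apply Finset.sum_lt_sum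
      · intro l hl
        rw [Finset.mem_filter] at hl
        have := diag_le hA h0 h1 h l
        rw [hl.2] at this
        exact this
      · exact ⟨i, by simp, hlt⟩
    rw [he, S_sum h.1] at this
    exact lt_irrefl _ this
  -- the rows are supported in the own block
  have hQ : ∀ i b, b ≠ π i → (A * ind π) i b = 0 := by
    intro i b hb
    by_contra hne
    have hpos : 0 < (A * ind π) i b := lt_of_le_of_ne (Q_nonneg h0 π i b) (Ne.symm hne)
    have hcoef : ((W * ind π)⁻¹ * W) b i = ((W * ind π)⁻¹ * W) (π i) i := by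
      by_contra hc
      have hlt : ((W * ind π)⁻¹ * W) b i < ((W * ind π)⁻¹ * W) (π i) i :=
        lt_of_le_of_ne (coef_le h i b) hc
      have h2 := congrFun (congrFun (A_eq hA h.1) i) i
      rw [Matrix.mul_apply] at h2
      have h3 : ∑ b, (A * ind π) i b * ((W * ind π)⁻¹ * W) b i <
          ∑ b, (A * ind π) i b * ((W * ind π)⁻¹ * W) (π i) i := by
        apply Finset.sum_lt_sum
        · intro b _
          exact mul_le_mul_of_nonneg_left (coef_le h i b) (Q_nonneg h0 π i b)
        · exact ⟨b, Finset.mem_univ b, mul_lt_mul_of_pos_left hlt hpos⟩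
      rw [← h2, ← Finset.sum_mul, Q_sum h1, one_mul, ← hd i] at h3
      exact lt_irrefl _ h3
    have h4 := block_le hA h0 h1 (opt_of_eq h i b hcoef) b
    have h5 : (Finset.univ.filter (fun l => Function.update π i b l = b)) =
        insert i (Finset.univ.filter (fun l => π l = b)) := by
      ext l
      by_cases hl : l = i
      · subst hl
        simp
      · simp [hl]
    rw [h5, Finset.sum_insert (by simp [Ne.symm hb]), he b] at h4
    have := hp i
    linarith
  have hQ1 : ∀ i, (A * ind π) i (π i) = 1 := by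
    intro i
    rw [← Q_sum h1 π i]
    symm
    apply Finset.sum_eq_single
    · intro b _ hb
      exact hQ i b hb
    · intro hc
      exact absurd (Finset.mem_univ _) hc
  split_ifs with hij
  · have h2 := congrFun (congrFun (A_eq hA h.1) i) j
    rw [Matrix.mul_apply, Finset.sum_eq_single (π i)] at h2
    · rw [h2, hQ1, one_mul, hd j, hij]
    · intro b _ hb
      rw [hQ i b hb, zero_mul]
    · intro hc
      exact absurd (Finset.mem_univ _) hc
  · have h2 := hQ i (π j) hij
    rw [Q_eq] at h2
    have := (Finset.sum_eq_zero_iff_of_nonneg (fun l _ => h0 i l)).1 h2 j (by simp)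
    exact this

end Core

/-- The diagonal of a row-stochastic matrix of rank at most `k` fits into `k` bins of size one. -/
theorem packing {n : ℕ} (A : Matrix (Fin n) (Fin n) ℝ) (h0 : ∀ i j, 0 ≤ A i j)
    (h1 : ∀ i, ∑ j, A i j = 1) (hn : 0 < n) (k : ℕ) (hk : A.rank ≤ k) :
    ∃ π : Fin n → Fin k, (∀ b, ∑ i with π i = b, A i i ≤ 1) ∧
      ((∀ i, 0 < A i i) → (∀ b, ∑ i with π i = b, A i i = 1) →
        ∀ i j, A i j = if π j = π i then A j j else 0) := by
  classical
  let β : Module.Basis (Fin A.rank) ℝ (LinearMap.range A.mulVecLin) := Module.finBasis ℝ _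
  let a : Fin n → LinearMap.range A.mulVecLin := fun j =>
    ⟨A.mulVecLin (Pi.single j 1), LinearMap.mem_range_self _ _⟩
  let X : Matrix (Fin n) (Fin A.rank) ℝ := Matrix.of fun i c => (β c : Fin n → ℝ) i
  let W : Matrix (Fin A.rank) (Fin n) ℝ := Matrix.of fun c j => β.repr (a j) c
  have hA : A = X * W := by
    ext i j
    have e1 : (∑ c, β.repr (a j) c • β c) = a j := β.sum_repr (a j)
    have e2 := congrArg (fun x : LinearMap.range A.mulVecLin => (x : Fin n → ℝ) i) e1
    simp only [Submodule.coe_sum, Submodule.coe_smul, Finset.sum_apply, Pi.smul_apply,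
      smul_eq_mul] at e2
    have e3 : ((a j : LinearMap.range A.mulVecLin) : Fin n → ℝ) i = A i j := by
      change (A.mulVecLin (Pi.single j 1)) i = A i j
      rw [Matrix.mulVecLin_apply]
      simp
    rw [e3] at e2
    rw [← e2, Matrix.mul_apply]
    apply Finset.sum_congr rfl
    intro c _
    simp only [X, W, Matrix.of_apply]
    ring
  have hv : ∀ c, ∃ v : Fin n → ℝ, A.mulVecLin v = (β c : Fin n → ℝ) := by
    intro c
    exact LinearMap.mem_range.1 (β c).2
  choose v hv using hv
  let R : Matrix (Fin n) (Fin A.rank) ℝ := Matrix.of fun j c => v c j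
  have hWR : W * R = 1 := by
    ext c d
    have e1 : (∑ j, v d j • a j) = β d := by
      apply Subtype.ext
      rw [← hv d]
      simp only [Submodule.coe_sum, Submodule.coe_smul]
      have : v d = ∑ j, v d j • (Pi.single j 1 : Fin n → ℝ) := by
        ext i
        simp [Finset.sum_apply, Pi.single_apply]
      conv_rhs => rw [this]
      rw [map_sum]
      apply Finset.sum_congr rfl
      intro j _
      rw [map_smul]
    have e2 := congrArg (fun x => β.repr x c) e1
    simp only [map_sum, map_smul, Finsupp.coe_finsetSum, Finset.sum_apply, Finsupp.coe_smul,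
      Pi.smul_apply, smul_eq_mul, Module.Basis.repr_self] at e2
    rw [Matrix.mul_apply, Matrix.one_apply]
    have e3 : ∑ j, W c j * R j d = ∑ j, v d j * (β.repr (a j)) c := by
      apply Finset.sum_congr rfl
      intro j _
      simp only [W, R, Matrix.of_apply]
      ring
    rw [e3, e2, Finsupp.single_apply]
    simp [eq_comm]
  have hu : (fun c => ∑ i, W c i) ≠ 0 := by
    intro hc
    have h2 := h1 ⟨0, hn⟩
    have h3 : ∀ j, A ⟨0, hn⟩ j = ∑ c, X ⟨0, hn⟩ c * W c j := by
      intro j
      conv_lhs => rw [hA]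
      rw [Matrix.mul_apply]
    simp only [h3] at h2
    rw [Finset.sum_comm] at h2
    have h4 : ∀ c, ∑ j, X ⟨0, hn⟩ c * W c j = 0 := by
      intro c
      rw [← Finset.mul_sum]
      have := congrFun hc c
      simp only [Pi.zero_apply] at this
      rw [this, mul_zero]
    simp [h4] at h2
  obtain ⟨T0, t1, t2⟩ := exists_start W R hWR hu
  obtain ⟨π0, hπ0⟩ := exists_nonsing W T0 t1 t2
  obtain ⟨π, hπ⟩ := @Finite.exists_max (Fin n → Fin A.rank) ℝ _ ⟨π0⟩ _
    (fun π => |(W * ind π).det|)
  have hopt : IsOpt W π := by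
    refine ⟨?_, hπ⟩
    have := hπ π0
    have h5 := abs_pos.2 hπ0
    exact abs_pos.1 (lt_of_lt_of_le h5 this)
  have hcast : ∀ (b : Fin A.rank) (i : Fin n),
      Fin.castLE hk (π i) = Fin.castLE hk b ↔ π i = b := by
    intro b i
    exact (Fin.castLE_injective hk).eq_iff
  refine ⟨fun i => Fin.castLE hk (π i), ?_, ?_⟩
  · intro b
    by_cases hb : (b : ℕ) < A.rank
    · have : ∑ i with Fin.castLE hk (π i) = b, A i i =
          ∑ i with π i = ⟨b, hb⟩, A i i := by
        apply Finset.sum_congr _ (fun _ _ => rfl)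
        ext i
        simp only [Finset.mem_filter, Finset.mem_univ, true_and]
        rw [← hcast]
        rfl
      rw [this]
      exact block_le hA h0 h1 hopt _
    · have : (Finset.univ.filter (fun i => Fin.castLE hk (π i) = b)) = ∅ := by
        apply Finset.filter_eq_empty_iff.2
        intro i _ hi
        apply hb
        rw [← hi]
        exact (π i).2
      rw [this]
      simp
  · intro hp he i j
    have he' : ∀ b, ∑ i with π i = b, A i i = 1 := by
      intro b
      rw [← he (Fin.castLE hk b)]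
      apply Finset.sum_congr _ (fun _ _ => rfl)
      ext i
      simp only [Finset.mem_filter, Finset.mem_univ, true_and]
      rw [hcast]
    rw [structure_of_eq hA h0 h1 hopt hp he' i j]
    simp only [hcast]


/-! ### The inequality for the diagonal -/

theorem tangent (r : ℕ) (c : ℕ) :
    (r : ℝ) * Real.log r + ((c : ℝ) - r) * (((r + 1 : ℕ) : ℝ) * Real.log ((r + 1 : ℕ) : ℝ)
      - r * Real.log r) ≤ c * Real.log c ∧
    ((r : ℝ) * Real.log r + ((c : ℝ) - r) * (((r + 1 : ℕ) : ℝ) * Real.log ((r + 1 : ℕ) : ℝ)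
      - r * Real.log r) = c * Real.log c → c = r ∨ c = r + 1) := by
  rcases lt_trichotomy c r with h | h | h
  · have h1 := Real.strictConvexOn_mul_log.slope_strict_mono_adjacent (x := (c : ℝ)) (y := (r : ℝ))
      (z := ((r + 1 : ℕ) : ℝ)) (Set.mem_Ici.2 (Nat.cast_nonneg c))
      (Set.mem_Ici.2 (Nat.cast_nonneg _)) (by exact_mod_cast h) (by exact_mod_cast Nat.lt_succ_self r)
    have h2 : (0 : ℝ) < (r : ℝ) - c := by
      have : (c : ℝ) < r := by exact_mod_cast h
      linarith
    have h3 : ((r + 1 : ℕ) : ℝ) - (r : ℝ) = 1 := by push_cast; ring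
    rw [h3, div_one, div_lt_iff₀ h2] at h1
    have h4 : (r : ℝ) * Real.log r + ((c : ℝ) - r) * (((r + 1 : ℕ) : ℝ) *
        Real.log ((r + 1 : ℕ) : ℝ) - r * Real.log r) < c * Real.log c := by nlinarith
    exact ⟨h4.le, fun h5 => absurd h5 h4.ne⟩
  · subst h
    simp
  · rcases Nat.lt_or_ge (r + 1) c with h' | h'
    · have h1 := Real.strictConvexOn_mul_log.slope_strict_mono_adjacent (x := (r : ℝ))
        (y := ((r + 1 : ℕ) : ℝ)) (z := (c : ℝ)) (Set.mem_Ici.2 (Nat.cast_nonneg r))
        (Set.mem_Ici.2 (Nat.cast_nonneg _)) (by exact_mod_cast Nat.lt_succ_self r)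
        (by exact_mod_cast h')
      have h2 : (0 : ℝ) < (c : ℝ) - ((r + 1 : ℕ) : ℝ) := by
        have : ((r + 1 : ℕ) : ℝ) < c := by exact_mod_cast h'
        linarith
      have h3 : ((r + 1 : ℕ) : ℝ) - (r : ℝ) = 1 := by push_cast; ring
      rw [h3, div_one, lt_div_iff₀ h2] at h1
      have h4 : (r : ℝ) * Real.log r + ((c : ℝ) - r) * (((r + 1 : ℕ) : ℝ) *
          Real.log ((r + 1 : ℕ) : ℝ) - r * Real.log r) < c * Real.log c := by
        have h6 : ((c : ℝ) - r) = ((c : ℝ) - ((r + 1 : ℕ) : ℝ)) + 1 := by push_cast; ring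
        rw [h6]
        nlinarith
      exact ⟨h4.le, fun h5 => absurd h5 h4.ne⟩
    · have : c = r + 1 := le_antisymm h' h
      subst this
      constructor
      · push_cast
        nlinarith
      · intro _
        exact Or.inr rfl

/-- The value `M(n,k)`, where `r = n / k` and `s = n % k`. -/
noncomputable def M (n k : ℕ) : ℝ :=
  (1 / ((n / k : ℕ) : ℝ) ^ (n / k)) ^ (k - n % k) *
    (1 / ((n / k + 1 : ℕ) : ℝ) ^ (n / k + 1)) ^ (n % k)

theorem M_pos (n k : ℕ) (hk : 1 ≤ k) (hkn : k ≤ n) : 0 < M n k := by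
  have hr : 0 < n / k := Nat.div_pos hkn hk
  unfold M
  positivity

theorem log_M (n k : ℕ) (hk : 1 ≤ k) (hkn : k ≤ n) :
    Real.log (M n k) = - (((k : ℝ) * (((n / k : ℕ) : ℝ) * Real.log ((n / k : ℕ) : ℝ))) +
      ((n % k : ℕ) : ℝ) * (((n / k + 1 : ℕ) : ℝ) * Real.log ((n / k + 1 : ℕ) : ℝ) -
        ((n / k : ℕ) : ℝ) * Real.log ((n / k : ℕ) : ℝ))) := by
  have hr : 0 < n / k := Nat.div_pos hkn hk
  have hr' : (0 : ℝ) < ((n / k : ℕ) : ℝ) := by exact_mod_cast hr
  have hs : n % k ≤ k := (Nat.mod_lt _ hk).le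
  unfold M
  rw [Real.log_mul (by positivity) (by positivity), Real.log_pow, Real.log_pow, one_div, one_div,
    Real.log_inv, Real.log_inv, Real.log_pow, Real.log_pow, Nat.cast_sub hs]
  ring

theorem card_sum {n k : ℕ} (π : Fin n → Fin k) :
    ∑ b, (((univ.filter (fun i => π i = b)).card : ℕ) : ℝ) = n := by
  have := Finset.card_eq_sum_card_fiberwise (f := π) (s := (univ : Finset (Fin n)))
    (t := (univ : Finset (Fin k))) (fun _ _ => Finset.mem_coe.2 (mem_univ _))
  rw [Finset.card_univ, Fintype.card_fin] at this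
  rw [← Nat.cast_sum, ← this]

/-- The bound for positive numbers packed into `k` bins of size one, with the equality case. -/
theorem bins {n k : ℕ} (hk : 1 ≤ k) (hkn : k ≤ n) (a : Fin n → ℝ) (ha : ∀ i, 0 < a i)
    (π : Fin n → Fin k) (hb : ∀ b, ∑ i with π i = b, a i ≤ 1) :
    ∏ i, a i ≤ M n k ∧ (∏ i, a i = M n k →
      (∀ i, a i = 1 / (((univ.filter (fun l => π l = π i)).card : ℕ) : ℝ)) ∧
      (∀ b, (univ.filter (fun l => π l = b)).card = n / k ∨
        (univ.filter (fun l => π l = b)).card = n / k + 1)) := by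
  set c : Fin k → ℕ := fun b => (univ.filter (fun l => π l = b)).card with hc
  have hcpos : ∀ i, (0 : ℝ) < c (π i) := by
    intro i
    have : 0 < c (π i) := Finset.card_pos.2 ⟨i, by simp⟩
    exact_mod_cast this
  set D : ℝ := ((n / k + 1 : ℕ) : ℝ) * Real.log ((n / k + 1 : ℕ) : ℝ) -
        ((n / k : ℕ) : ℝ) * Real.log ((n / k : ℕ) : ℝ) with hD
  set g : ℝ := ((n / k : ℕ) : ℝ) * Real.log ((n / k : ℕ) : ℝ) with hg
  have hlogM := log_M n k hk hkn
  rw [← hg, ← hD] at hlogM
  clear_value D g
  have hMpos := M_pos n k hk hkn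
  have hPpos : 0 < ∏ i, a i := Finset.prod_pos (fun i _ => ha i)
  -- the two slack quantities
  have e1 : ∀ i, 0 ≤ c (π i) * a i - 1 - Real.log (c (π i) * a i) := by
    intro i
    have := Real.log_le_sub_one_of_pos (mul_pos (hcpos i) (ha i))
    linarith
  have e2 : ∀ b, 0 ≤ c b * Real.log (c b) - (g + ((c b : ℝ) - (n / k : ℕ)) * D) := by
    intro b
    have := (tangent (n / k) (c b)).1
    rw [← hg, ← hD] at this
    linarith
  have e3 : ∀ b, 0 ≤ (c b : ℝ) * (1 - ∑ i with π i = b, a i) := by
    intro b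
    exact mul_nonneg (Nat.cast_nonneg _) (by linarith [hb b])
  have fib : ∀ f : Fin n → ℝ, ∑ i, f i = ∑ b, ∑ i with π i = b, f i := by
    intro f
    exact (Finset.sum_fiberwise _ _ _).symm
  have s1 : ∑ i, (c (π i) * a i - 1 - Real.log (c (π i) * a i)) =
      ∑ b, (c b : ℝ) * (∑ i with π i = b, a i) - n - (∑ b, (c b : ℝ) * Real.log (c b)) -
        Real.log (∏ i, a i) := by
    have t1 : ∑ i, (c (π i) : ℝ) * a i = ∑ b, (c b : ℝ) * (∑ i with π i = b, a i) := by
      rw [fib]
      apply Finset.sum_congr rfl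
      intro b _
      rw [Finset.mul_sum]
      apply Finset.sum_congr rfl
      intro i hi
      rw [(Finset.mem_filter.1 hi).2]
    have t2 : ∑ i, Real.log (c (π i) : ℝ) = ∑ b, (c b : ℝ) * Real.log (c b) := by
      rw [fib]
      apply Finset.sum_congr rfl
      intro b _
      rw [Finset.sum_congr rfl (fun i hi => by rw [(Finset.mem_filter.1 hi).2]),
        Finset.sum_const, nsmul_eq_mul]
    have t3 : ∑ i, Real.log (a i) = Real.log (∏ i, a i) := by
      rw [Real.log_prod]
      intro i _
      exact (ha i).ne'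
    have t4 : ∀ i, c (π i) * a i - 1 - Real.log (c (π i) * a i) =
        c (π i) * a i - 1 - Real.log (c (π i)) - Real.log (a i) := by
      intro i
      rw [Real.log_mul (hcpos i).ne' (ha i).ne']
      ring
    rw [Finset.sum_congr rfl (fun i _ => t4 i)]
    simp only [Finset.sum_sub_distrib]
    rw [t1, t2, t3]
    simp
  have s2 : ∑ b, (c b * Real.log (c b) - (g + ((c b : ℝ) - (n / k : ℕ)) * D)) =
      ∑ b, (c b : ℝ) * Real.log (c b) - (k * g + ((n % k : ℕ) : ℝ) * D) := by
    rw [Finset.sum_sub_distrib]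
    congr 1
    rw [Finset.sum_add_distrib, ← Finset.sum_mul, Finset.sum_sub_distrib, card_sum π]
    simp only [Finset.sum_const, Finset.card_univ, Fintype.card_fin, nsmul_eq_mul]
    congr 2
    have h1 : (n : ℝ) = ((k * (n / k) + n % k : ℕ) : ℝ) := by rw [Nat.div_add_mod]
    rw [h1]
    push_cast
    ring
  have s3 : ∑ b, (c b : ℝ) * (1 - ∑ i with π i = b, a i) =
      n - ∑ b, (c b : ℝ) * (∑ i with π i = b, a i) := by
    simp only [mul_sub, mul_one, Finset.sum_sub_distrib]
    rw [card_sum π]
  have key : ∑ i, (c (π i) * a i - 1 - Real.log (c (π i) * a i)) +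
      ∑ b, (c b * Real.log (c b) - (g + ((c b : ℝ) - (n / k : ℕ)) * D)) +
      ∑ b, (c b : ℝ) * (1 - ∑ i with π i = b, a i) =
      Real.log (M n k) - Real.log (∏ i, a i) := by
    rw [s1, s2, s3, hlogM]
    ring
  have n1 := Finset.sum_nonneg (fun i (_ : i ∈ (univ : Finset (Fin n))) => e1 i)
  have n2 := Finset.sum_nonneg (fun i (_ : i ∈ (univ : Finset (Fin k))) => e2 i)
  have n3 := Finset.sum_nonneg (fun i (_ : i ∈ (univ : Finset (Fin k))) => e3 i)
  constructor
  · rw [← Real.log_le_log_iff hPpos hMpos]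
    linarith
  · intro heq
    rw [heq, sub_self] at key
    have z1 : ∑ i, (c (π i) * a i - 1 - Real.log (c (π i) * a i)) = 0 := by linarith
    have z2 : ∑ b, (c b * Real.log (c b) - (g + ((c b : ℝ) - (n / k : ℕ)) * D)) = 0 := by linarith
    rw [Finset.sum_eq_zero_iff_of_nonneg (fun i _ => e1 i)] at z1
    rw [Finset.sum_eq_zero_iff_of_nonneg (fun i _ => e2 i)] at z2
    constructor
    · intro i
      have h1 := z1 i (mem_univ _)
      have h2 : (c (π i) : ℝ) * a i = 1 := by
        by_contra hne
        have := Real.log_lt_sub_one_of_pos (mul_pos (hcpos i) (ha i)) hne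
        linarith
      rw [eq_div_iff (hcpos i).ne', mul_comm]
      exact h2
    · intro b
      have h1 := z2 b (mem_univ _)
      apply (tangent (n / k) (c b)).2
      rw [← hg, ← hD]
      linarith


/-! ### The extremal matrices -/

/-- The parts of the composition: `k - s` parts equal to `r`, followed by `s` parts equal to
`r + 1`, where `r = n / k` and `s = n % k`. -/
def part (n k : ℕ) (b : Fin k) : ℕ := if (b : ℕ) < k - n % k then n / k else n / k + 1

theorem sum_range_parts {N : Type*} [AddCommMonoid N] (k s : ℕ) (hs : s ≤ k) (x y : N) :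
    ∑ b : Fin k, (if (b : ℕ) < k - s then x else y) = (k - s) • x + s • y := by
  rw [Fin.sum_univ_eq_sum_range (fun b => if b < k - s then x else y) k]
  have hk : k = (k - s) + s := by omega
  conv_lhs => rw [hk]
  rw [Finset.sum_range_add]
  congr 1
  · have h3 : (k - s) + s - s = k - s := by omega
    rw [h3, Finset.sum_congr rfl (g := fun _ => x), Finset.sum_const, Finset.card_range]
    intro b hb
    rw [Finset.mem_range] at hb
    simp [hb]
  · rw [Finset.sum_congr rfl (g := fun _ => y), Finset.sum_const, Finset.card_range]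
    intro b hb
    rw [Finset.mem_range] at hb
    have h2 : ¬ ((k - s) + b < (k - s) + s - s) := by omega
    rw [if_neg h2]

theorem prod_range_parts {N : Type*} [CommMonoid N] (k s : ℕ) (hs : s ≤ k) (x y : N) :
    ∏ b : Fin k, (if (b : ℕ) < k - s then x else y) = x ^ (k - s) * y ^ s := by
  have := sum_range_parts (N := Additive N) k s hs (Additive.ofMul x) (Additive.ofMul y)
  exact this

theorem sum_part (n k : ℕ) (hk : 1 ≤ k) : ∑ b, part n k b = n := by
  have hs : n % k ≤ k := (Nat.mod_lt _ hk).le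
  unfold part
  rw [sum_range_parts k (n % k) hs]
  simp only [smul_eq_mul]
  have := Nat.div_add_mod n k
  have h2 : (k - n % k) * (n / k) + n % k * (n / k) = k * (n / k) := by
    rw [← Nat.add_mul]
    congr 1
    omega
  rw [Nat.mul_add, mul_one, ← Nat.add_assoc, h2, this]

/-- The standard way to list the positions of the blocks one after the other. -/
def pos (n k : ℕ) (hk : 1 ≤ k) : (Σ b : Fin k, Fin (part n k b)) ≃ Fin n :=
  finSigmaFinEquiv.trans (finCongr (sum_part n k hk))

/-- The block diagonal matrix `J_{r_1} ⊕ ... ⊕ J_{r_k}`, with `r_b = part n k b`. -/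
noncomputable def J (n k : ℕ) (hk : 1 ≤ k) : Matrix (Fin n) (Fin n) ℝ :=
  Matrix.reindex (pos n k hk) (pos n k hk)
    (Matrix.blockDiagonal' fun b : Fin k =>
      (Matrix.of fun _ _ => 1 / (part n k b : ℝ) : Matrix (Fin (part n k b)) (Fin (part n k b)) ℝ))

theorem J_apply (n k : ℕ) (hk : 1 ≤ k) (x y : Σ b : Fin k, Fin (part n k b)) :
    J n k hk (pos n k hk x) (pos n k hk y) = if x.1 = y.1 then 1 / (part n k y.1 : ℝ) else 0 := by
  unfold J
  rw [Matrix.reindex_apply, Matrix.submatrix_apply, Equiv.symm_apply_apply,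
    Equiv.symm_apply_apply, Matrix.blockDiagonal'_apply]
  by_cases h : x.1 = y.1
  · simp [h]
  · simp [h]

theorem J_symm (n k : ℕ) (hk : 1 ≤ k) (i j : Fin n) : J n k hk i j = J n k hk j i := by
  obtain ⟨x, rfl⟩ := (pos n k hk).surjective i
  obtain ⟨y, rfl⟩ := (pos n k hk).surjective j
  rw [J_apply, J_apply]
  by_cases h : x.1 = y.1
  · simp [h]
  · simp [h, Ne.symm h]

theorem J_prod (n k : ℕ) (hk : 1 ≤ k) : ∏ i, J n k hk i i = M n k := by
  rw [← Equiv.prod_comp (pos n k hk) (fun i => J n k hk i i)]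
  simp only [J_apply, if_true]
  rw [Fintype.prod_sigma]
  simp only [Finset.prod_const, Finset.card_univ, Fintype.card_fin]
  unfold part M
  have hs : n % k ≤ k := (Nat.mod_lt _ hk).le
  rw [← prod_range_parts k (n % k) hs]
  apply Finset.prod_congr rfl
  intro b _
  split_ifs
  · rw [one_div, one_div, inv_pow]
  · rw [one_div, one_div, inv_pow]

/-- If the blocks of `π` have sizes `r` or `r + 1`, the corresponding matrix is a simultaneous
permutation of `J`. -/
theorem exists_perm {n k : ℕ} (hk : 1 ≤ k) (π : Fin n → Fin k)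
    (hc : ∀ b, (univ.filter (fun l => π l = b)).card = n / k ∨
        (univ.filter (fun l => π l = b)).card = n / k + 1) :
    ∃ τ : Equiv.Perm (Fin n), ∀ x y, J n k hk x y =
      if π (τ y) = π (τ x) then 1 / (((univ.filter (fun l => π l = π (τ y))).card : ℕ) : ℝ)
      else 0 := by
  classical
  set c : Fin k → ℕ := fun b => (univ.filter (fun l => π l = b)).card with hcdef
  have hsum : ∑ b, c b = n := by
    have := Finset.card_eq_sum_card_fiberwise (f := π) (s := (univ : Finset (Fin n)))
      (t := (univ : Finset (Fin k))) (fun _ _ => Finset.mem_coe.2 (mem_univ _))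
    rw [Finset.card_univ, Fintype.card_fin] at this
    exact this.symm
  have hdecomp : ∀ d : Fin k → ℕ, (∀ b, d b = n / k ∨ d b = n / k + 1) →
      ∑ b, d b = k * (n / k) + (univ.filter (fun b => d b = n / k + 1)).card := by
    intro d hd
    have : ∀ b, d b = n / k + (if d b = n / k + 1 then 1 else 0) := by
      intro b
      rcases hd b with h | h
      · have h2 : ¬ d b = n / k + 1 := by omega
        simp only [h2, if_false]
        omega
      · simp only [h, if_true]
    rw [Finset.sum_congr rfl (fun b _ => this b), Finset.sum_add_distrib]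
    simp
  have hpart : ∀ b, part n k b = n / k ∨ part n k b = n / k + 1 := by
    intro b
    unfold part
    split_ifs
    · exact Or.inl rfl
    · exact Or.inr rfl
  have hcard : (univ.filter (fun b => part n k b = n / k + 1)).card =
      (univ.filter (fun b => c b = n / k + 1)).card := by
    have h1 := hdecomp c hc
    have h2 := hdecomp (part n k) hpart
    rw [hsum] at h1
    rw [sum_part n k hk] at h2
    omega
  have eq1 : {b // part n k b = n / k + 1} ≃ {b // c b = n / k + 1} := by
    apply Fintype.equivOfCardEq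
    rw [Fintype.card_subtype, Fintype.card_subtype]
    exact hcard
  set ρ : Equiv.Perm (Fin k) := eq1.extendSubtype with hρ
  have hρc : ∀ b, c (ρ b) = part n k b := by
    intro b
    by_cases hb : part n k b = n / k + 1
    · rw [hb]
      exact eq1.extendSubtype_mem b hb
    · have h2 := eq1.extendSubtype_not_mem b hb
      have h3 := (hpart b).resolve_right hb
      rw [h3]
      exact (hc (ρ b)).resolve_right h2
  have fe : ∀ b, Fin (part n k b) ≃ {i // π i = ρ b} := by
    intro b
    apply Fintype.equivOfCardEq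
    rw [Fintype.card_fin, Fintype.card_subtype, ← hρc b]
  let φ : (Σ b : Fin k, Fin (part n k b)) ≃ Fin n :=
    (Equiv.sigmaCongrRight fe).trans
      ((Equiv.sigmaCongrLeft (β := fun b => {i // π i = b}) ρ).trans (Equiv.sigmaFiberEquiv π))
  have hφ : ∀ x : (Σ b : Fin k, Fin (part n k b)), π (φ x) = ρ x.1 := by
    intro x
    exact (fe x.1 x.2).2
  refine ⟨(pos n k hk).symm.trans φ, ?_⟩
  intro x y
  obtain ⟨x, rfl⟩ := (pos n k hk).surjective x
  obtain ⟨y, rfl⟩ := (pos n k hk).surjective y
  rw [J_apply]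
  simp only [Equiv.trans_apply, Equiv.symm_apply_apply, hφ]
  have h5 : (univ.filter (fun l => π l = ρ y.1)).card = part n k y.1 := hρc y.1
  rw [h5]
  by_cases h : x.1 = y.1
  · simp [h]
  · have h6 : ¬ ρ y.1 = ρ x.1 := fun h7 => h (ρ.injective h7).symm
    simp [h, h6]


/-! ### The theorem -/

/-- A matrix is row-stochastic if its entries are nonnegative and every row sums to `1`. -/
def RowStochastic {n : ℕ} (A : Matrix (Fin n) (Fin n) ℝ) : Prop :=
  (∀ i j, 0 ≤ A i j) ∧ ∀ i, ∑ j, A i j = 1

theorem form_iff {n : ℕ} (J A : Matrix (Fin n) (Fin n) ℝ) (σ τ : Equiv.Perm (Fin n)) :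
    A = (τ.permMatrix ℝ)ᵀ * J * τ.permMatrix ℝ * σ.permMatrix ℝ ↔
      ∀ i j, A i (σ j) = J (τ.symm i) (τ.symm j) := by
  have h : (τ.permMatrix ℝ)ᵀ * J * τ.permMatrix ℝ * σ.permMatrix ℝ =
      J.submatrix (fun i => τ.symm i) (fun j => τ.symm (σ.symm j)) := by
    have h1 : (τ.permMatrix ℝ)ᵀ = τ.symm.toPEquiv.toMatrix := by
      unfold Equiv.Perm.permMatrix
      rw [← PEquiv.toMatrix_symm]
      rfl
    rw [h1]
    unfold Equiv.Perm.permMatrix
    rw [PEquiv.toMatrix_toPEquiv_mul, PEquiv.mul_toMatrix_toPEquiv, PEquiv.mul_toMatrix_toPEquiv,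
      Matrix.submatrix_submatrix, Matrix.submatrix_submatrix]
    rfl
  rw [h]
  constructor
  · intro hA i j
    rw [hA]
    simp
  · intro hA
    ext i j
    have := hA i (σ.symm j)
    rw [Equiv.apply_symm_apply] at this
    rw [this]
    rfl

theorem core {n k : ℕ} (hk : 1 ≤ k) (hkn : k ≤ n) (A : Matrix (Fin n) (Fin n) ℝ)
    (hst : RowStochastic A) (hr : A.rank ≤ k) :
    ∏ i, A i i ≤ M n k ∧ (∏ i, A i i = M n k ↔
      ∃ τ : Equiv.Perm (Fin n), ∀ i j, A i j = J n k hk (τ.symm i) (τ.symm j)) := by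
  obtain ⟨h0, h1⟩ := hst
  have hM := M_pos n k hk hkn
  have back : (∃ τ : Equiv.Perm (Fin n), ∀ i j, A i j = J n k hk (τ.symm i) (τ.symm j)) →
      ∏ i, A i i = M n k := by
    rintro ⟨τ, hτ⟩
    rw [Finset.prod_congr rfl (fun i _ => hτ i i),
      Equiv.prod_comp τ.symm (fun i => J n k hk i i), J_prod]
  obtain ⟨π, hπ1, hπ2⟩ := packing A h0 h1 (by omega) k hr
  by_cases hp : ∀ i, 0 < A i i
  · obtain ⟨b1, b2⟩ := bins hk hkn (fun i => A i i) hp π hπ1
    refine ⟨b1, ?_, back⟩
    intro he
    obtain ⟨c1, c2⟩ := b2 he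
    have hr1 : 1 ≤ n / k := Nat.div_pos hkn hk
    have hblock : ∀ b, ∑ i with π i = b, A i i = 1 := by
      intro b
      have h3 : ∀ i ∈ univ.filter (fun l => π l = b), A i i =
          1 / (((univ.filter (fun l => π l = b)).card : ℕ) : ℝ) := by
        intro i hi
        rw [c1 i, (Finset.mem_filter.1 hi).2]
      rw [Finset.sum_congr rfl h3, Finset.sum_const, nsmul_eq_mul]
      have h4 : (((univ.filter (fun l => π l = b)).card : ℕ) : ℝ) ≠ 0 := by
        have : (univ.filter (fun l => π l = b)).card ≠ 0 := by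
          rcases c2 b with h | h <;> omega
        exact_mod_cast this
      field_simp
    obtain ⟨τ, hτ⟩ := exists_perm hk π c2
    refine ⟨τ, ?_⟩
    intro i j
    rw [hτ, Equiv.apply_symm_apply, Equiv.apply_symm_apply, hπ2 hp hblock i j]
    split_ifs
    · exact c1 j
    · rfl
  · push Not at hp
    obtain ⟨i, hi⟩ := hp
    have hz : A i i = 0 := le_antisymm hi (h0 i i)
    have hz2 : ∏ i, A i i = 0 := Finset.prod_eq_zero (Finset.mem_univ i) hz
    refine ⟨by rw [hz2]; exact hM.le, ?_, back⟩
    intro he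
    rw [hz2] at he
    exact absurd he hM.ne

/-- **The conjecture on diagonal products of stochastic matrices of rank at most `k`.** -/
theorem result (n k : ℕ) (hk : 1 ≤ k) (hkn : k ≤ n) (σ : Equiv.Perm (Fin n))
    (A : Matrix (Fin n) (Fin n) ℝ) (hst : RowStochastic A ∨ RowStochastic Aᵀ)
    (hr : A.rank ≤ k) :
    ∏ i, A i (σ i) ≤ M n k ∧
      (∏ i, A i (σ i) = M n k ↔
        ∃ τ : Equiv.Perm (Fin n),
          A = (τ.permMatrix ℝ)ᵀ * J n k hk * τ.permMatrix ℝ * σ.permMatrix ℝ) := by
  simp only [form_iff]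
  rcases hst with hst | hst
  · have h1 : RowStochastic (A.submatrix (Equiv.refl (Fin n)) σ) := by
      refine ⟨fun i j => hst.1 _ _, fun i => ?_⟩
      simp only [Matrix.submatrix_apply, Equiv.refl_apply]
      rw [Equiv.sum_comp σ (fun j => A i j)]
      exact hst.2 i
    have h2 : (A.submatrix (Equiv.refl (Fin n)) σ).rank ≤ k := by
      rw [Matrix.rank_submatrix]
      exact hr
    exact core hk hkn _ h1 h2
  · have h1 : RowStochastic (Aᵀ.submatrix (Equiv.refl (Fin n)) σ.symm) := by
      refine ⟨fun i j => hst.1 _ _, fun i => ?_⟩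
      simp only [Matrix.submatrix_apply, Equiv.refl_apply]
      rw [Equiv.sum_comp σ.symm (fun j => Aᵀ i j)]
      exact hst.2 i
    have h2 : (Aᵀ.submatrix (Equiv.refl (Fin n)) σ.symm).rank ≤ k := by
      rw [Matrix.rank_submatrix, Matrix.rank_transpose]
      exact hr
    obtain ⟨g1, g2⟩ := core hk hkn _ h1 h2
    have hprod : ∏ i, (Aᵀ.submatrix (Equiv.refl (Fin n)) σ.symm) i i = ∏ i, A i (σ i) := by
      rw [← Equiv.prod_comp σ (fun i => (Aᵀ.submatrix (Equiv.refl (Fin n)) σ.symm) i i)]
      apply Finset.prod_congr rfl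
      intro i _
      simp
    rw [hprod] at g1 g2
    refine ⟨g1, g2.trans ⟨?_, ?_⟩⟩
    · rintro ⟨τ, hτ⟩
      refine ⟨τ.trans σ.symm, fun i j => ?_⟩
      have := hτ (σ j) (σ i)
      simp only [Matrix.submatrix_apply, Equiv.refl_apply, Matrix.transpose_apply,
        Equiv.symm_apply_apply] at this
      rw [this, J_symm]
      rfl
    · rintro ⟨τ, hτ⟩
      refine ⟨τ.trans σ, fun i j => ?_⟩
      have := hτ (σ.symm j) (σ.symm i)
      rw [Equiv.apply_symm_apply] at this
      simp only [Matrix.submatrix_apply, Equiv.refl_apply, Matrix.transpose_apply]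
      rw [this, J_symm]
      rfl

end Pool.Agent.Results.MP_bd2037_co.DiagonalProducts
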